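import Pool.Agent.H444.CL.Stm

/-!
Project CL (helper444): the statement `S_FAR`.
-/

set_option autoImplicit false

namespace Pool.Agent.H154.CL

open Filter Topology MeasureTheory Complex Set
open scoped ComplexConjugate
open H370 Pool.Agent.H444.CL

theorem term_bound (ρ : ℂ) (t : ℝ) (h1 : 1 / 2 < ρ.re) (h2 : ρ.re < 1) :
    ‖1 / ((⟨2, t⟩ : ℂ) - (1 - conj ρ)) - 1 / ((⟨2, t⟩ : ℂ) - ρ)‖ ≤
      2 * (ρ.re - 1 / 2) * (1 / (1 + (t - ρ.im) ^ 2)) := by
  set a : ℂ := (⟨2, t⟩ : ℂ) - (1 - conj ρ) with ha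
  set b : ℂ := (⟨2, t⟩ : ℂ) - ρ with hb
  have hare : a.re = 1 + ρ.re := by
    simp [ha]; ring
  have haim : a.im = t - ρ.im := by
    simp [ha]
  have hbre : b.re = 2 - ρ.re := by
    simp [hb]
  have hbim : b.im = t - ρ.im := by
    simp [hb]
  have hq : 0 < 1 + (t - ρ.im) ^ 2 := by positivity
  have hna : 1 + (t - ρ.im) ^ 2 ≤ ‖a‖ ^ 2 := by
    rw [← Complex.normSq_eq_norm_sq, Complex.normSq_apply, hare, haim]
    nlinarith
  have hnb : 1 + (t - ρ.im) ^ 2 ≤ ‖b‖ ^ 2 := by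
    rw [← Complex.normSq_eq_norm_sq, Complex.normSq_apply, hbre, hbim]
    nlinarith
  have ha0 : a ≠ 0 := by
    intro h
    rw [h, norm_zero] at hna
    nlinarith
  have hb0 : b ≠ 0 := by
    intro h
    rw [h, norm_zero] at hnb
    nlinarith
  have hab : 1 + (t - ρ.im) ^ 2 ≤ ‖a‖ * ‖b‖ := by
    have h3 : (1 + (t - ρ.im) ^ 2) ^ 2 ≤ (‖a‖ * ‖b‖) ^ 2 := by
      rw [mul_pow, sq (1 + (t - ρ.im) ^ 2)]
      exact mul_le_mul hna hnb hq.le (sq_nonneg _)
    exact le_of_sq_le_sq h3 (by positivity)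
  have hdiff : 1 / a - 1 / b = ((-(2 * (ρ.re - 1 / 2)) : ℝ) : ℂ) / (a * b) := by
    have h4 : b - a = ((-(2 * (ρ.re - 1 / 2)) : ℝ) : ℂ) := by
      apply Complex.ext
      · rw [Complex.sub_re, hare, hbre, Complex.ofReal_re]; ring
      · rw [Complex.sub_im, haim, hbim, Complex.ofReal_im]; ring
    rw [← h4]
    field_simp
  rw [hdiff, norm_div, norm_mul, Complex.norm_real, norm_neg, Real.norm_of_nonneg (by linarith)]
  rw [mul_one_div]
  exact div_le_div_of_nonneg_left (by linarith) hq hab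

theorem int_bound (γ T : ℝ) :
    ∫ t in T..(2 * T), 1 / (1 + (t - γ) ^ 2) ≤ Real.pi := by
  have h := intervalIntegral.integral_comp_sub_right (a := T) (b := 2 * T)
    (fun x : ℝ => 1 / (1 + x ^ 2)) γ
  rw [h, integral_one_div_one_add_sq]
  have h1 := Real.arctan_lt_pi_div_two (2 * T - γ)
  have h2 := Real.neg_pi_div_two_lt_arctan (T - γ)
  linarith

theorem FAR : S_FAR := by
  classical
  intro F hF hFew ε hε
  obtain ⟨K, hK, hKb⟩ := right_bound hF 2 (by norm_num)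
  obtain ⟨T1, hT1⟩ := hFew (ε / (8 * Real.pi)) (by have := Real.pi_pos; positivity)
  refine ⟨max (max T1 4) (Real.exp (4 * K / ε + 1)), fun T hT Q hQ => ?_⟩
  have hTT1 : T1 ≤ T := le_trans (le_trans (le_max_left _ _) (le_max_left _ _)) hT
  have hT4 : 4 ≤ T := le_trans (le_trans (le_max_right _ _) (le_max_left _ _)) hT
  have hTe : Real.exp (4 * K / ε + 1) ≤ T := le_trans (le_max_right _ _) hT
  have hT0 : 0 < T := by linarith
  have hL : 4 * K / ε + 1 ≤ Real.log T := by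
    rw [← Real.log_exp (4 * K / ε + 1)]
    exact Real.log_le_log (Real.exp_pos _) hTe
  have hL0 : 0 < Real.log T := by
    have : 0 ≤ 4 * K / ε := by positivity
    linarith
  have hpi := Real.pi_pos
  have hfew := hT1 T hTT1
  -- the zeros
  have hmem : ∀ ρ ∈ RT F T, 1 / 2 < ρ.re ∧ ρ.re < 1 := by
    intro ρ hρ
    unfold RT at hρ
    rw [Finset.mem_filter] at hρ
    have h3 := (mem_Zf hF (by linarith : 1 ≤ T / 2)).1 hρ.1
    exact ⟨hρ.2, h3.2.1⟩
  -- pointwise bound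
  have hpt : ∀ t ∈ Ioc T (2 * T), ‖Ht F T Q ⟨2, t⟩ - 1‖ ≤
      2 / Real.log T * (K + ∑ ρ ∈ RT F T, (mult F ρ : ℝ) *
        (2 * (ρ.re - 1 / 2) * (1 / (1 + (t - ρ.im) ^ 2)))) := by
    intro t ht
    have hFs : F ⟨2, t⟩ ≠ 0 := hF.nzr _ (by norm_num) (by show 1 ≤ t; linarith [ht.1])
    have hf := hQ.2 ⟨2, t⟩ (by norm_num) (by show T / 2 < t; linarith [ht.1])
      (by show t < 4 * T; linarith [ht.2]) hFs
    have hKt : Kt F T Q ⟨2, t⟩ = deriv F ⟨2, t⟩ / F ⟨2, t⟩ + ∑ ρ ∈ ZT F T, (mult F ρ : ℂ) *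
        (1 / ((⟨2, t⟩ : ℂ) - st ρ) - 1 / ((⟨2, t⟩ : ℂ) - ρ)) := by
      unfold Kt
      rw [hf]
      simp only [mul_sub, Finset.sum_sub_distrib, mul_one_div]
      ring
    have hsum : ∑ ρ ∈ ZT F T, (mult F ρ : ℂ) *
        (1 / ((⟨2, t⟩ : ℂ) - st ρ) - 1 / ((⟨2, t⟩ : ℂ) - ρ)) =
        ∑ ρ ∈ RT F T, (mult F ρ : ℂ) *
        (1 / ((⟨2, t⟩ : ℂ) - (1 - conj ρ)) - 1 / ((⟨2, t⟩ : ℂ) - ρ)) := by
      unfold RT
      rw [Finset.sum_filter]
      refine Finset.sum_congr rfl fun ρ _ => ?_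
      unfold st
      split_ifs with h
      · rfl
      · rw [sub_self, mul_zero]
    have hH : Ht F T Q ⟨2, t⟩ - 1 = ((2 / Real.log T : ℝ) : ℂ) * Kt F T Q ⟨2, t⟩ := by
      unfold Ht
      ring
    rw [hH, norm_mul, Complex.norm_real, Real.norm_of_nonneg (by positivity)]
    refine mul_le_mul_of_nonneg_left ?_ (by positivity)
    rw [hKt, hsum]
    refine le_trans (norm_add_le _ _) (add_le_add (hKb _ (by norm_num)
      (by show 1 ≤ t; linarith [ht.1])) ?_)
    refine le_trans (norm_sum_le _ _) (Finset.sum_le_sum fun ρ hρ => ?_)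
    rw [norm_mul, Complex.norm_natCast]
    exact mul_le_mul_of_nonneg_left (term_bound ρ t (hmem ρ hρ).1 (hmem ρ hρ).2) (by positivity)
  -- continuity of the majorant
  have hcont1 : ∀ ρ : ℂ, Continuous fun t : ℝ => 1 / (1 + (t - ρ.im) ^ 2) := by
    intro ρ
    refine Continuous.div continuous_const (by fun_prop) fun t => ?_
    positivity
  have hc2 : ∀ ρ : ℂ, Continuous fun t : ℝ => (mult F ρ : ℝ) *
        (2 * (ρ.re - 1 / 2) * (1 / (1 + (t - ρ.im) ^ 2))) := fun ρ =>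
    Continuous.mul continuous_const (Continuous.mul continuous_const (hcont1 ρ))
  have hc3 : Continuous fun t : ℝ => ∑ ρ ∈ RT F T, (mult F ρ : ℝ) *
        (2 * (ρ.re - 1 / 2) * (1 / (1 + (t - ρ.im) ^ 2))) :=
    continuous_finsetSum _ fun ρ _ => hc2 ρ
  have hcont : Continuous fun t : ℝ => 2 / Real.log T * (K + ∑ ρ ∈ RT F T, (mult F ρ : ℝ) *
        (2 * (ρ.re - 1 / 2) * (1 / (1 + (t - ρ.im) ^ 2)))) :=
    Continuous.mul continuous_const (Continuous.add continuous_const hc3)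
  have hle : T ≤ 2 * T := by linarith
  have hint1 : ∫ t in T..(2 * T), ‖Ht F T Q ⟨2, t⟩ - 1‖ ≤
      ∫ t in T..(2 * T), 2 / Real.log T * (K + ∑ ρ ∈ RT F T, (mult F ρ : ℝ) *
        (2 * (ρ.re - 1 / 2) * (1 / (1 + (t - ρ.im) ^ 2)))) := by
    rw [intervalIntegral.integral_of_le hle, intervalIntegral.integral_of_le hle]
    refine integral_mono_of_nonneg (Eventually.of_forall fun t => norm_nonneg _) ?_ ?_
    · exact (hcont.integrableOn_Icc).mono_set Ioc_subset_Icc_self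
    · exact (ae_restrict_iff' measurableSet_Ioc).2 (ae_of_all _ hpt)
  refine le_trans hint1 ?_
  rw [intervalIntegral.integral_const_mul, intervalIntegral.integral_add
    (intervalIntegrable_const) (hc3.intervalIntegrable _ _),
    intervalIntegral.integral_const, intervalIntegral.integral_finsetSum
      (fun ρ _ => (hc2 ρ).intervalIntegrable _ _)]
  have hS : ∑ ρ ∈ RT F T, ∫ t in T..(2 * T), (mult F ρ : ℝ) *
      (2 * (ρ.re - 1 / 2) * (1 / (1 + (t - ρ.im) ^ 2))) ≤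
      2 * Real.pi * (ε / (8 * Real.pi) * (T * Real.log T)) := by
    calc ∑ ρ ∈ RT F T, ∫ t in T..(2 * T), (mult F ρ : ℝ) *
        (2 * (ρ.re - 1 / 2) * (1 / (1 + (t - ρ.im) ^ 2)))
        ≤ ∑ ρ ∈ RT F T, 2 * Real.pi * ((mult F ρ : ℝ) * (ρ.re - 1 / 2)) := by
          refine Finset.sum_le_sum fun ρ hρ => ?_
          rw [intervalIntegral.integral_const_mul, intervalIntegral.integral_const_mul]
          have h5 := int_bound ρ.im T
          have h6 := (hmem ρ hρ).1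
          calc (mult F ρ : ℝ) * (2 * (ρ.re - 1 / 2) * ∫ t in T..(2 * T), 1 / (1 + (t - ρ.im) ^ 2))
              ≤ (mult F ρ : ℝ) * (2 * (ρ.re - 1 / 2) * Real.pi) := by
                refine mul_le_mul_of_nonneg_left ?_ (by positivity)
                exact mul_le_mul_of_nonneg_left h5 (by linarith)
            _ = 2 * Real.pi * ((mult F ρ : ℝ) * (ρ.re - 1 / 2)) := by ring
      _ = 2 * Real.pi * ∑ ρ ∈ RT F T, (mult F ρ : ℝ) * (ρ.re - 1 / 2) := by
          rw [Finset.mul_sum]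
      _ ≤ _ := mul_le_mul_of_nonneg_left hfew (by positivity)
  have e1 : 2 * Real.pi * (ε / (8 * Real.pi) * (T * Real.log T)) = ε / 4 * T * Real.log T := by
    field_simp
    ring
  rw [e1] at hS
  have e2 : (2 * T - T) • K = T * K := by
    rw [smul_eq_mul]; ring
  rw [e2]
  have h7 : 2 / Real.log T * (T * K + ∑ ρ ∈ RT F T, ∫ t in T..(2 * T), (mult F ρ : ℝ) *
      (2 * (ρ.re - 1 / 2) * (1 / (1 + (t - ρ.im) ^ 2)))) ≤
      2 / Real.log T * (T * K + ε / 4 * T * Real.log T) :=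
    mul_le_mul_of_nonneg_left (by linarith) (by positivity)
  refine le_trans h7 ?_
  have h8 : 2 / Real.log T * (T * K + ε / 4 * T * Real.log T) =
      T * (2 * K / Real.log T) + ε / 2 * T := by
    field_simp
    ring
  rw [h8]
  have h9 : 2 * K / Real.log T ≤ ε / 2 := by
    rw [div_le_iff₀ hL0]
    have h10 : 4 * K / ε ≤ Real.log T := by linarith
    rw [div_le_iff₀ hε] at h10
    linarith
  have h11 := mul_le_mul_of_nonneg_left h9 hT0.le
  linarith

end Pool.Agent.H154.CL
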